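import Pool.Agent.Q286.TR.Stm

/-!
# Project TR (helper286), job TRC: the logarithmic derivative of an Euler product
-/

set_option autoImplicit false

namespace Pool.Agent.Q150.TR

open Complex Filter Topology Pool.Agent.Q286.TR

theorem cpow_pow' (q m : ℕ) (s : ℂ) : ((q ^ m : ℕ) : ℂ) ^ s = ((q : ℂ) ^ s) ^ m := by
  induction m with
  | zero => simp
  | succ m ih => rw [pow_succ, Nat.cast_mul, Complex.natCast_mul_natCast_cpow, ih, pow_succ]

theorem norm_cpow_neg {M : ℕ} (hM : 0 < M) {s : ℂ} (hs : 2 ≤ s.re) :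
    ‖(M : ℂ) ^ (-s)‖ ≤ (M : ℝ) ^ (-2 : ℝ) := by
  rw [Complex.norm_natCast_cpow_of_pos hM, Complex.neg_re]
  exact Real.rpow_le_rpow_of_exponent_le (by exact_mod_cast hM) (by linarith)

theorem half_rpow : (2 : ℝ) ^ (-(3 / 2) : ℝ) ≤ 1 / 2 := by
  have h1 : (2 : ℝ) ^ (-(3 / 2) : ℝ) ≤ (2 : ℝ) ^ (-1 : ℝ) :=
    Real.rpow_le_rpow_of_exponent_le (by norm_num) (by norm_num)
  rw [Real.rpow_neg_one] at h1
  linarith

/-- the local parameters are small -/
theorem small {q : ℕ} (hq : 2 ≤ q) {β : ℂ} (hβ : ‖β‖ ≤ Real.sqrt q) {s : ℂ} (hs : 2 ≤ s.re) :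
    ‖β * (q : ℂ) ^ (-s)‖ ≤ (q : ℝ) ^ (-(3 / 2) : ℝ) ∧ (q : ℝ) ^ (-(3 / 2) : ℝ) ≤ 1 / 2 := by
  have hq0 : (0 : ℝ) < q := by positivity
  have hq2 : (2 : ℝ) ≤ q := by exact_mod_cast hq
  constructor
  · rw [norm_mul]
    calc ‖β‖ * ‖(q : ℂ) ^ (-s)‖ ≤ Real.sqrt q * (q : ℝ) ^ (-2 : ℝ) :=
        mul_le_mul hβ (norm_cpow_neg (by omega) hs) (norm_nonneg _) (by positivity)
      _ = (q : ℝ) ^ (1 / 2 : ℝ) * (q : ℝ) ^ (-2 : ℝ) := by rw [Real.sqrt_eq_rpow]
      _ = (q : ℝ) ^ (-(3 / 2) : ℝ) := by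
        rw [← Real.rpow_add hq0]; norm_num
  · calc (q : ℝ) ^ (-(3 / 2) : ℝ) ≤ (2 : ℝ) ^ (-(3 / 2) : ℝ) :=
        Real.rpow_le_rpow_of_nonpos (by norm_num) hq2 (by norm_num)
      _ ≤ 1 / 2 := half_rpow

theorem lhs_of {a : ℕ → ℂ} (h0 : a 0 = 0) {s v : ℂ} (h : HasSum (fun n : ℕ => a n * (n : ℂ) ^ (-s)) v) :
    LSeriesHasSum a s v := by
  unfold LSeriesHasSum
  have e : LSeries.term a s = fun n : ℕ => a n * (n : ℂ) ^ (-s) :=
    funext fun n => LSeries.term_def₀ h0 s n
  rw [e]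
  exact h

/-- the powers of a small number -/
theorem pow_bound {z : ℂ} {r : ℝ} (h1 : ‖z‖ ≤ r) (h2 : r ≤ 1 / 2) (k : ℕ) :
    ‖z ^ k / (k : ℂ)‖ ≤ r * (2 * (1 / 2 : ℝ) ^ k) := by
  have hr : 0 ≤ r := (norm_nonneg _).trans h1
  rcases Nat.eq_zero_or_pos k with h | h
  · subst h
    simp only [Nat.cast_zero, div_zero, norm_zero]
    positivity
  · obtain ⟨m, rfl⟩ : ∃ m, k = m + 1 := ⟨k - 1, by omega⟩
    rw [norm_div, norm_pow, Complex.norm_natCast]
    have h3 : (1 : ℝ) ≤ ((m + 1 : ℕ) : ℝ) := by exact_mod_cast h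
    calc ‖z‖ ^ (m + 1) / ((m + 1 : ℕ) : ℝ) ≤ ‖z‖ ^ (m + 1) :=
        div_le_self (by positivity) h3
      _ = ‖z‖ ^ m * ‖z‖ := pow_succ _ _
      _ ≤ (1 / 2 : ℝ) ^ m * r :=
        mul_le_mul (pow_le_pow_left₀ (norm_nonneg _) (h1.trans h2) _) h1 (norm_nonneg _)
          (by positivity)
      _ = r * (2 * (1 / 2 : ℝ) ^ (m + 1)) := by rw [pow_succ]; ring

theorem finite_Pr {ι : Type} (q : ι → ℕ) (hq : ∀ i, 2 ≤ q i)
    (hs : Summable (fun i => (q i : ℝ) ^ (-(3 / 2) : ℝ))) (n : ℕ) : (Pr q n).Finite := by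
  have h1 : {i | q i ≤ n}.Finite := by
    have h2 := hs.tendsto_cofinite_zero
    rcases Nat.eq_zero_or_pos n with h | h
    · subst h
      convert Set.finite_empty
      ext i
      have := hq i
      simp only [Set.mem_ofPred_eq, Set.mem_empty_iff_false, iff_false]
      omega
    · have hn : (0 : ℝ) < n := by exact_mod_cast h
      have h3 : (0 : ℝ) < (n : ℝ) ^ (-(3 / 2) : ℝ) := by positivity
      have h4 := h2.eventually (gt_mem_nhds h3)
      rw [Filter.eventually_cofinite] at h4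
      refine h4.subset fun i hi => ?_
      have hi' : q i ≤ n := hi
      show ¬ _
      rw [not_lt]
      have hqi : (0 : ℝ) < q i := by have := hq i; positivity
      exact Real.rpow_le_rpow_of_nonpos hqi (by exact_mod_cast hi') (by norm_num)
  refine (h1.prod (Set.finite_Iic n)).subset ?_
  rintro ⟨i, k⟩ ⟨hk, h⟩
  simp only at hk h
  refine ⟨?_, ?_⟩
  · show q i ≤ n
    rw [← h]
    exact Nat.le_self_pow (by omega) _
  · show k ≤ n
    rw [← h]
    calc k ≤ 2 ^ k := Nat.lt_two_pow_self.le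
      _ ≤ q i ^ k := Nat.pow_le_pow_left (hq i) k

theorem t_TRC : S_TRC := by
  classical
  intro ι D q β hq hs hβ lam lam0 lamsum lamser n hn
  obtain ⟨c, hc⟩ : ∃ c : ι × ℕ → ℂ, c = fun x => (∑ j, β x.1 j ^ x.2) / (x.2 : ℂ) := ⟨_, rfl⟩
  obtain ⟨N, hN⟩ : ∃ N : ι × ℕ → ℕ, N = fun x => q x.1 ^ x.2 := ⟨_, rfl⟩
  obtain ⟨g, hg⟩ : ∃ g : ℕ → ℂ, g = fun n => ∑' x : N ⁻¹' {n}, c x.1 := ⟨_, rfl⟩
  have hterm : ∀ (s : ℂ) (x : ι × ℕ), c x * (N x : ℂ) ^ (-s) =
      ∑ j, (β x.1 j * (q x.1 : ℂ) ^ (-s)) ^ x.2 / (x.2 : ℂ) := by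
    intro s x
    rw [hc, hN]
    simp only
    rw [cpow_pow', Finset.sum_div, Finset.sum_mul]
    refine Finset.sum_congr rfl fun j _ => ?_
    rw [mul_pow]
    ring
  have hsum : ∀ s : ℂ, 2 ≤ s.re → Summable (fun x => ‖c x * (N x : ℂ) ^ (-s)‖) := by
    intro s hs2
    have h1 : Summable (fun j : ℕ => 2 * (1 / 2 : ℝ) ^ j) :=
        (summable_geometric_of_lt_one (by norm_num : (0 : ℝ) ≤ 1 / 2) (by norm_num)).mul_left 2
    have h2 := (hs.mul_of_nonneg h1 (fun i => by positivity) (fun _ => by positivity)).mul_left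
      (D : ℝ)
    refine Summable.of_nonneg_of_le (fun _ => norm_nonneg _) (fun x => ?_) h2
    rw [hterm]
    refine (norm_sum_le _ _).trans ?_
    calc ∑ j : Fin D, ‖(β x.1 j * (q x.1 : ℂ) ^ (-s)) ^ x.2 / (x.2 : ℂ)‖ ≤
          ∑ _j : Fin D, (q x.1 : ℝ) ^ (-(3 / 2) : ℝ) * (2 * (1 / 2 : ℝ) ^ x.2) :=
          Finset.sum_le_sum fun j _ => pow_bound (small (hq _) (hβ _ _) hs2).1
            (small (hq _) (hβ x.1 j) hs2).2 _
      _ = (D : ℝ) * ((q x.1 : ℝ) ^ (-(3 / 2) : ℝ) * (2 * (1 / 2 : ℝ) ^ x.2)) := by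
          rw [Finset.sum_const, Finset.card_univ, Fintype.card_fin, nsmul_eq_mul]
  have hexp : ∀ s : ℂ, 2 ≤ s.re → ∏' i, ∏ j, (1 - β i j * (q i : ℂ) ^ (-s))⁻¹ =
      cexp (∑' x, c x * (N x : ℂ) ^ (-s)) := by
    intro s hs2
    have h1 := (hsum s hs2).of_norm.hasSum
    have h2 : ∀ i, HasSum (fun k => c (i, k) * (N (i, k) : ℂ) ^ (-s))
        (∑ j, -Complex.log (1 - β i j * (q i : ℂ) ^ (-s))) := by
      intro i
      simp only [hterm]
      refine hasSum_sum fun j _ => ?_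
      refine Complex.hasSum_taylorSeries_neg_log ?_
      have := small (hq i) (hβ i j) hs2
      linarith [this.1, this.2]
    have h3 := (h1.prod_fiberwise h2).cexp
    have h4 : (cexp ∘ fun i => ∑ j, -Complex.log (1 - β i j * (q i : ℂ) ^ (-s))) =
        fun i => ∏ j, (1 - β i j * (q i : ℂ) ^ (-s))⁻¹ := by
      funext i
      simp only [Function.comp]
      rw [Complex.exp_sum]
      refine Finset.prod_congr rfl fun j _ => ?_
      rw [Complex.exp_neg, Complex.exp_log]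
      intro h
      have h5 : β i j * (q i : ℂ) ^ (-s) = 1 := by linear_combination -h
      have h6 := small (hq i) (hβ i j) hs2
      rw [h5] at h6
      norm_num at h6
      linarith [h6.1, h6.2]
    rw [h4] at h3
    exact h3.tprod_eq
  have g0 : g 0 = 0 := by
    rw [hg]
    simp only
    have : IsEmpty (N ⁻¹' {0} : Set (ι × ℕ)) := by
      constructor
      rintro ⟨x, hx⟩
      have h1 : N x = 0 := hx
      rw [hN] at h1
      have h2 := hq x.1
      have h3 : 0 < q x.1 ^ x.2 := by positivity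
      simp only at h1
      omega
    exact tsum_empty
  have hgs : ∀ s : ℂ, 2 ≤ s.re → LSeriesHasSum g s (∑' x, c x * (N x : ℂ) ^ (-s)) := by
    intro s hs2
    refine lhs_of g0 ?_
    have h2 := (hsum s hs2).of_norm.hasSum.tsum_fiberwise N
    have h3 : ∀ m : ℕ, ∑' x : N ⁻¹' {m}, c x.1 * (N x.1 : ℂ) ^ (-s) = g m * (m : ℂ) ^ (-s) := by
      intro m
      rw [hg]
      simp only
      rw [← tsum_mul_right]
      refine tsum_congr fun x => ?_
      have : N x.1 = m := x.2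
      rw [this]
    simp only [h3] at h2
    exact h2
  have hls : ∀ s : ℂ, 2 ≤ s.re → LSeriesHasSum lam s (∏' i, ∏ j, (1 - β i j * (q i : ℂ) ^ (-s))⁻¹) :=
    fun s hs2 => lhs_of lam0 (lamser s hs2)
  have hLG : ∀ s : ℂ, 2 ≤ s.re → LSeries lam s = cexp (LSeries g s) := by
    intro s hs2
    rw [(hls s hs2).LSeries_eq, (hgs s hs2).LSeries_eq, hexp s hs2]
  have h22 : (2 : ℝ) ≤ (2 : ℂ).re := by simp
  have abg : LSeries.abscissaOfAbsConv g ≤ ((2 : ℝ) : EReal) := by
    have := (hgs 2 h22).LSeriesSummable.abscissaOfAbsConv_le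
    simpa using this
  have abl : LSeries.abscissaOfAbsConv lam ≤ ((2 : ℝ) : EReal) := by
    have := (hls 2 h22).LSeriesSummable.abscissaOfAbsConv_le
    simpa using this
  have hder : ∀ y : ℝ, 2 < y → LSeries (LSeries.logMul lam) (y : ℂ) =
      LSeries (LSeries.convolution (LSeries.logMul g) lam) (y : ℂ) := by
    intro y hy
    have hy' : ((2 : ℝ) : EReal) < (((y : ℂ).re : ℝ) : EReal) := by
      rw [Complex.ofReal_re]
      exact_mod_cast hy
    have d1 := LSeries_hasDerivAt (lt_of_le_of_lt abg hy')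
    have d2 := LSeries_hasDerivAt (lt_of_le_of_lt abl hy')
    have d3 := d1.cexp
    have he : LSeries lam =ᶠ[𝓝 (y : ℂ)] fun s => cexp (LSeries g s) := by
      have ho : IsOpen {s : ℂ | 2 < s.re} := isOpen_lt continuous_const Complex.continuous_re
      filter_upwards [ho.mem_nhds (show (y : ℂ) ∈ {s : ℂ | 2 < s.re} by
        show 2 < (y : ℂ).re
        rwa [Complex.ofReal_re])] with s hs2
      exact hLG s (le_of_lt hs2)
    have d4 := d3.congr_of_eventuallyEq he
    have d5 := d2.unique d4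
    have c1 : LSeriesSummable (LSeries.logMul g) (y : ℂ) :=
      LSeriesSummable_of_abscissaOfAbsConv_lt_re (by
        rw [LSeries.abscissaOfAbsConv_logMul]
        exact lt_of_le_of_lt abg hy')
    have c2 : LSeriesSummable lam (y : ℂ) :=
      LSeriesSummable_of_abscissaOfAbsConv_lt_re (lt_of_le_of_lt abl hy')
    rw [LSeries_convolution' c1 c2, hLG y (by rw [Complex.ofReal_re]; exact hy.le)]
    linear_combination -d5
  have hab1 : LSeries.abscissaOfAbsConv (LSeries.logMul lam) < ⊤ := by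
    rw [LSeries.abscissaOfAbsConv_logMul]
    exact lt_of_le_of_lt abl (EReal.coe_lt_top _)
  have hab2 : LSeries.abscissaOfAbsConv (LSeries.convolution (LSeries.logMul g) lam) < ⊤ := by
    have hy' : ((2 : ℝ) : EReal) < (((3 : ℂ).re : ℝ) : EReal) := by
      have : (3 : ℂ).re = 3 := by simp
      rw [this]
      exact_mod_cast (by norm_num : (2 : ℝ) < 3)
    have c1 : LSeriesSummable (LSeries.logMul g) 3 :=
      LSeriesSummable_of_abscissaOfAbsConv_lt_re (by
        rw [LSeries.abscissaOfAbsConv_logMul]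
        exact lt_of_le_of_lt abg hy')
    have c2 : LSeriesSummable lam 3 :=
      LSeriesSummable_of_abscissaOfAbsConv_lt_re (lt_of_le_of_lt abl hy')
    exact lt_of_le_of_lt (c1.convolution c2).abscissaOfAbsConv_le (EReal.coe_lt_top _)
  have heq := LSeries.eq_of_LSeries_eventually_eq hab1 hab2 (by
    filter_upwards [eventually_gt_atTop (2 : ℝ)] with y hy using hder y hy) (n := n) (by omega)
  have hTh : ∀ d : ℕ, d ≠ 0 → LSeries.logMul g d = Th q β d := by
    intro d hd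
    unfold Th LSeries.logMul
    rw [hg]
    simp only
    have hfs : (Function.support ((Pr q d).indicator fun x : ι × ℕ =>
        ((Real.log (q x.1) : ℝ) : ℂ) * ∑ j, β x.1 j ^ x.2)).Finite :=
      (finite_Pr q hq hs d).subset (by
      intro x hx
      by_contra hx'
      exact hx (Set.indicator_of_notMem hx' _))
    rw [← tsum_mul_left, finsum_mem_def,
      ← tsum_eq_finsum (L := SummationFilter.unconditional (ι × ℕ)) hfs]
    rw [tsum_subtype (N ⁻¹' {d}) (fun x => Complex.log (d : ℂ) * c x)]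
    refine tsum_congr fun x => ?_
    by_cases hx : x ∈ Pr q d
    · have h1 : x ∈ N ⁻¹' {d} := by
        show N x = d
        rw [hN]
        exact hx.2
      rw [Set.indicator_of_mem hx, Set.indicator_of_mem h1, hc]
      simp only
      have h2 : ((d : ℕ) : ℂ) = (((q x.1 ^ x.2 : ℕ) : ℝ) : ℂ) := by
        rw [hx.2]; simp
      rw [h2, ← Complex.ofReal_log (by positivity), Nat.cast_pow, Real.log_pow]
      have h3 : (x.2 : ℂ) ≠ 0 := by
        have := hx.1
        exact_mod_cast (by omega : x.2 ≠ 0)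
      push_cast
      field_simp
    · rw [Set.indicator_of_notMem hx]
      by_cases h1 : x ∈ N ⁻¹' {d}
      · rw [Set.indicator_of_mem h1]
        have h2 : x.2 = 0 := by
          by_contra h3
          apply hx
          refine ⟨by omega, ?_⟩
          have : N x = d := h1
          rw [hN] at this
          exact this
        rw [hc]
        simp only
        rw [h2]
        simp
      · rw [Set.indicator_of_notMem h1]
  rw [LSeries.convolution_def] at heq
  have h1 : LSeries.logMul lam n = lam n * ((Real.log n : ℝ) : ℂ) := by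
    unfold LSeries.logMul
    rw [mul_comm, Complex.natCast_log]
  rw [← h1, heq]
  simp only
  rw [Nat.sum_divisorsAntidiagonal (fun a b => LSeries.logMul g a * lam b)]
  refine Finset.sum_congr rfl fun d hd => ?_
  rw [hTh d (Nat.pos_of_mem_divisors hd).ne']

end Pool.Agent.Q150.TR
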